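import Pool.Agent.Y266.PX.Stm

/-!
# Job PX-POS: at most as many chores as agents
-/

set_option autoImplicit false

open Pool.Agent.Results.MP_1eb72c_co.NoPropXPO

namespace Pool.Agent.Y266.PX

namespace POSW

open Function Finset

lemma exists_iter {I : Type} [Finite I] (f : I → I) (x : I) :
    ∃ n : ℕ, f^[n] x ∈ periodicPts f := by
  obtain ⟨a, b, hab, h⟩ := Finite.exists_ne_map_eq_of_infinite (fun n : ℕ => f^[n] x)
  have key : ∀ a b : ℕ, a < b → f^[a] x = f^[b] x → ∃ n : ℕ, f^[n] x ∈ periodicPts f := by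
    intro a b hlt h
    refine ⟨a, b - a, by omega, ?_⟩
    show f^[b - a] (f^[a] x) = f^[a] x
    rw [← Function.iterate_add_apply, Nat.sub_add_cancel hlt.le]
    exact h.symm
  rcases lt_or_gt_of_ne hab with hlt | hlt
  · exact key a b hlt h
  · exact key b a hlt h.symm

lemma sum_le_one {I : Type} [DecidableEq I] (s : Finset I) (g : I → ℝ) (h : ∀ x, g x ≤ 0) {k : I}
    (hk : k ∈ s) : ∑ x ∈ s, g x ≤ g k := by
  rw [← Finset.add_sum_erase s g hk]
  have : ∑ x ∈ s.erase k, g x ≤ 0 := Finset.sum_nonpos fun x _ => h x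
  linarith

lemma sum_lt_one {I : Type} [DecidableEq I] (s : Finset I) (g : I → ℝ) (h : ∀ x, g x < 0)
    {k k' : I} (hk : k ∈ s) (hk' : k' ∈ s) (hne : k' ≠ k) : ∑ x ∈ s, g x < g k := by
  rw [← Finset.add_sum_erase s g hk]
  have h1 := sum_le_one (s.erase k) g (fun x => (h x).le) (Finset.mem_erase.2 ⟨hne, hk'⟩)
  have := h k'
  linarith

theorem key {I : Type} [Fintype I] [DecidableEq I] (w : I → I → ℝ) (hw : ∀ j k, w j k < 0) :
    ∃ σ : Equiv.Perm I, ∀ b : I → I,
      (∀ j, w j (σ.symm j) ≤ ∑ k ∈ univ.filter (fun k => b k = j), w j k) →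
      ∀ j, w j (σ.symm j) = ∑ k ∈ univ.filter (fun k => b k = j), w j k := by
  classical
  obtain ⟨σ, hσ⟩ := Finite.exists_max (fun σ : Equiv.Perm I => ∑ j, w j (σ.symm j))
  refine ⟨σ, fun b hb => ?_⟩
  set f : I → I := fun i => b (σ.symm i) with hf
  have hbij := Function.bijOn_periodicPts f
  set g : I → I := fun i => if i ∈ periodicPts f then f i else i with hg
  have hgP : ∀ i ∈ periodicPts f, g i = f i := fun i hi => if_pos hi
  have hgN : ∀ i, i ∉ periodicPts f → g i = i := fun i hi => if_neg hi
  have hginj : Injective g := by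
    intro i i' h
    by_cases hi : i ∈ periodicPts f
    · by_cases hi' : i' ∈ periodicPts f
      · rw [hgP i hi, hgP i' hi'] at h
        exact hbij.injOn hi hi' h
      · rw [hgP i hi, hgN i' hi'] at h
        exact absurd (h ▸ hbij.mapsTo hi) hi'
    · by_cases hi' : i' ∈ periodicPts f
      · rw [hgN i hi, hgP i' hi'] at h
        exact absurd (h ▸ hbij.mapsTo hi') hi
      · rwa [hgN i hi, hgN i' hi'] at h
  set τ : Equiv.Perm I := Equiv.ofBijective g (Finite.injective_iff_bijective.1 hginj) with hτ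
  have hτg : ∀ i, τ i = g i := fun i => rfl
  -- the terms
  have hmem : ∀ i ∈ periodicPts f,
      σ.symm i ∈ univ.filter (fun k => b k = f i) := fun i _ => by simp [hf]
  have term : ∀ i, w (τ i) (σ.symm (τ i)) ≤ w (τ i) (σ.symm i) := by
    intro i
    rw [hτg]
    by_cases hi : i ∈ periodicPts f
    · rw [hgP i hi]
      exact (hb (f i)).trans (sum_le_one _ _ (fun k => (hw _ k).le) (hmem i hi))
    · rw [hgN i hi]
  have hmax := hσ (σ.trans τ)
  have r1 : ∑ j, w j ((σ.trans τ).symm j) = ∑ i, w (τ i) (σ.symm i) := by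
    rw [← Equiv.sum_comp τ]
    refine Finset.sum_congr rfl fun i _ => ?_
    rw [Equiv.symm_trans_apply, Equiv.symm_apply_apply]
  have r2 : ∑ j, w j (σ.symm j) = ∑ i, w (τ i) (σ.symm (τ i)) :=
    (Equiv.sum_comp τ (fun j => w j (σ.symm j))).symm
  rw [r1, r2] at hmax
  have heq : ∀ i, w (τ i) (σ.symm (τ i)) = w (τ i) (σ.symm i) := by
    intro i
    have h2 : ∑ i, w (τ i) (σ.symm (τ i)) = ∑ i, w (τ i) (σ.symm i) :=
      le_antisymm (Finset.sum_le_sum fun i _ => term i) hmax
    exact (Finset.sum_eq_sum_iff_of_le (fun i _ => term i)).1 h2 i (Finset.mem_univ i)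
  -- on the periodic points
  have hP : ∀ i ∈ periodicPts f,
      w (f i) (σ.symm (f i)) = ∑ k ∈ univ.filter (fun k => b k = f i), w (f i) k ∧
      ∀ k, b k = f i → k = σ.symm i := by
    intro i hi
    have h1 := heq i
    rw [hτg, hgP i hi] at h1
    refine ⟨le_antisymm (hb (f i)) ?_, ?_⟩
    · rw [h1]
      exact sum_le_one _ _ (fun k => (hw _ k).le) (hmem i hi)
    · intro k hk
      by_contra hne
      have h2 := sum_lt_one (univ.filter (fun k => b k = f i)) (w (f i)) (hw _) (hmem i hi)
        (k' := k) (by simp [hk]) hne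
      have h3 := hb (f i)
      linarith
  have hclosed : ∀ y, f y ∈ periodicPts f → y ∈ periodicPts f := by
    intro y hy
    obtain ⟨i, hi, hiy⟩ := hbij.surjOn hy
    have := (hP i hi).2 (σ.symm y) (by rw [hiy])
    rw [σ.symm.injective this]
    exact hi
  have hall : ∀ x, x ∈ periodicPts f := by
    intro x
    obtain ⟨n, hn⟩ := exists_iter f x
    induction n with
    | zero => exact hn
    | succ n ih =>
      rw [Function.iterate_succ_apply'] at hn
      exact ih (hclosed _ hn)
  intro j
  obtain ⟨i, hi, hij⟩ := hbij.surjOn (hall j)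
  rw [← hij]
  exact (hP i hi).1

end POSW

open Finset POSW in
theorem pos : S_POS := by
  classical
  intro n m hmn v hv
  -- chores that are worthless for somebody
  set G1 : Finset (Fin m) := univ.filter (fun g => ∀ i, v i g < 0) with hG1
  have hz : ∀ g : Fin m, ∃ i : Fin n, g ∉ G1 → v i g = 0 := by
    intro g
    by_cases hg : g ∈ G1
    · exact ⟨⟨0, by have := g.isLt; omega⟩, fun h => absurd hg h⟩
    · rw [hG1, Finset.mem_filter] at hg
      push Not at hg
      obtain ⟨i, hi⟩ := hg (Finset.mem_univ g)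
      exact ⟨i, fun _ => le_antisymm (hv i g) hi⟩
  choose z hz using hz
  have hneg : ∀ g ∈ G1, ∀ i, v i g < 0 := by
    intro g hg
    rw [hG1, Finset.mem_filter] at hg
    exact hg.2
  set I0 : Finset (Fin n) := (G1ᶜ).image z with hI0
  have hcard : Fintype.card {g // g ∈ G1} ≤ Fintype.card {i : Fin n // i ∉ I0} := by
    have h1 : I0.card ≤ G1ᶜ.card := Finset.card_image_le
    have h2 : G1ᶜ.card = m - G1.card := by rw [Finset.card_compl, Fintype.card_fin]
    have h3 : G1.card ≤ m := by
      have := Finset.card_le_univ G1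
      rwa [Fintype.card_fin] at this
    have h4 : Fintype.card {i : Fin n // i ∉ I0} = n - I0.card := by
      rw [Fintype.card_subtype_compl, Fintype.card_fin, Fintype.card_coe]
    rw [h4, Fintype.card_coe]
    omega
  obtain ⟨e⟩ := Function.Embedding.nonempty_of_card_le hcard
  obtain ⟨σ, hσ⟩ := key (I := {g // g ∈ G1}) (fun j k => v (e j).1 k.1)
    (fun j k => hneg k.1 k.2 _)
  set A : Fin m → Fin n := fun g => if hg : g ∈ G1 then (e (σ ⟨g, hg⟩)).1 else z g with hA
  have hA1 : ∀ (g : Fin m) (hg : g ∈ G1), A g = (e (σ ⟨g, hg⟩)).1 := fun g hg => dif_pos hg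
  have hA0 : ∀ (g : Fin m), g ∉ G1 → A g = z g := fun g hg => dif_neg hg
  have hA0' : ∀ (g : Fin m), g ∉ G1 → A g ∈ I0 := fun g hg => by
    rw [hA0 g hg, hI0]
    exact Finset.mem_image_of_mem z (Finset.mem_compl.2 hg)
  -- bundles of the agents in the range of `e`
  have bun : ∀ j : {g // g ∈ G1}, bundle A (e j).1 = {(σ.symm j).1} := by
    intro j
    ext g
    simp only [bundle, Finset.mem_filter, Finset.mem_univ, true_and, Finset.mem_singleton]
    constructor
    · intro h
      by_cases hg : g ∈ G1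
      · rw [hA1 g hg] at h
        have h1 : σ ⟨g, hg⟩ = j := e.injective (Subtype.ext h)
        rw [← h1, Equiv.symm_apply_apply]
      · exact absurd (h ▸ hA0' g hg) (e j).2
    · intro h
      have hg : g ∈ G1 := h ▸ (σ.symm j).2
      rw [hA1 g hg]
      have : (⟨g, hg⟩ : {g // g ∈ G1}) = σ.symm j := Subtype.ext h
      rw [this, Equiv.apply_symm_apply]
  -- the other agents
  have bun0 : ∀ i : Fin n, (∀ j, (e j).1 ≠ i) → ∀ g ∈ bundle A i, v i g = 0 := by
    intro i hi g hg
    simp only [bundle, Finset.mem_filter, Finset.mem_univ, true_and] at hg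
    by_cases hg1 : g ∈ G1
    · rw [hA1 g hg1] at hg
      exact absurd hg (hi _)
    · have := hz g hg1
      rw [← hA0 g hg1, hg] at this
      exact this
  refine ⟨A, ?_, ?_⟩
  · rintro ⟨B, hB, j0, hj0⟩
    have hout : ∀ i : Fin n, (∀ j, (e j).1 ≠ i) → ∀ g, B g = i → v i g = 0 := by
      intro i hi g hg
      have h1 := hB i
      have h2 : val v i (bundle A i) = 0 := Finset.sum_eq_zero (bun0 i hi)
      rw [h2] at h1
      unfold Pool.Agent.Results.MP_1eb72c_co.NoPropXPO.val at h1
      have h3 : ∑ g ∈ bundle B i, v i g ≤ v i g :=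
        sum_le_one _ _ (fun g => hv i g) (by simp [bundle, hg])
      exact le_antisymm (hv i g) (h1.trans h3)
    have hb : ∀ k : {g // g ∈ G1}, ∃ j : {g // g ∈ G1}, B k.1 = (e j).1 := by
      intro k
      by_contra hne
      push Not at hne
      have := hout (B k.1) (fun j h => hne j h.symm) k.1 rfl
      have h2 := hneg k.1 k.2 (B k.1)
      linarith
    choose b hb using hb
    have hup : ∀ j : {g // g ∈ G1}, val v (e j).1 (bundle B (e j).1) ≤
        ∑ k ∈ univ.filter (fun k => b k = j), v (e j).1 k.1 := by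
      intro j
      unfold Pool.Agent.Results.MP_1eb72c_co.NoPropXPO.val
      have hsub : ((univ.filter (fun k => b k = j)).map (Function.Embedding.subtype _)) ⊆
          bundle B (e j).1 := by
        intro g hg
        rw [Finset.mem_map] at hg
        obtain ⟨k, hk, hkg⟩ := hg
        rw [Finset.mem_filter] at hk
        simp only [bundle, Finset.mem_filter, Finset.mem_univ, true_and]
        rw [← hkg, ← hk.2]
        exact hb k
      have h1 := Finset.sum_sdiff hsub (f := fun g => v (e j).1 g)
      have h2 : ∑ g ∈ bundle B (e j).1 \ ((univ.filter (fun k => b k = j)).map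
          (Function.Embedding.subtype _)), v (e j).1 g ≤ 0 :=
        Finset.sum_nonpos fun g _ => hv _ g
      rw [Finset.sum_map] at h1
      simp only [Function.Embedding.subtype_apply] at h1
      linarith
    have hyp : ∀ j : {g // g ∈ G1}, v (e j).1 (σ.symm j).1 ≤
        ∑ k ∈ univ.filter (fun k => b k = j), v (e j).1 k.1 := by
      intro j
      have h1 := hB (e j).1
      rw [bun j] at h1
      have h2 : val v (e j).1 {(σ.symm j).1} = v (e j).1 (σ.symm j).1 := by
        unfold Pool.Agent.Results.MP_1eb72c_co.NoPropXPO.val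
        rw [Finset.sum_singleton]
      rw [h2] at h1
      exact h1.trans (hup j)
    have hfin := hσ b hyp
    by_cases hj : ∃ j, (e j).1 = j0
    · obtain ⟨j, rfl⟩ := hj
      have h1 := hup j
      rw [← hfin j] at h1
      rw [bun j] at hj0
      have h2 : val v (e j).1 {(σ.symm j).1} = v (e j).1 (σ.symm j).1 := by
        unfold Pool.Agent.Results.MP_1eb72c_co.NoPropXPO.val
        rw [Finset.sum_singleton]
      rw [h2] at hj0
      linarith
    · push Not at hj
      have h2 : val v j0 (bundle A j0) = 0 := Finset.sum_eq_zero (bun0 j0 hj)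
      rw [h2] at hj0
      have h3 : val v j0 (bundle B j0) ≤ 0 := Finset.sum_nonpos fun g _ => hv _ g
      linarith
  · intro i g hg
    by_cases hj : ∃ j, (e j).1 = i
    · obtain ⟨j, rfl⟩ := hj
      rw [bun j] at hg ⊢
      rw [Finset.mem_singleton] at hg
      rw [hg, Finset.erase_singleton]
      exact Finset.sum_empty
    · push Not at hj
      exact Finset.sum_eq_zero fun g' hg' => bun0 i hj g' (Finset.mem_of_mem_erase hg')

end Pool.Agent.Y266.PX
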