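import Pool.Agent.Y266.PX.Stm

/-! More chores than agents: no factor `α < n` is possible; the factor `n` is trivial. -/

set_option autoImplicit false

open Pool.Agent.Results.MP_1eb72c_co.NoPropXPO

namespace Pool.Agent.Y266.PX

/-- The instance: chore `n` has value `-1` for everyone; chore `i < n` has value `0` for agent `i`
and `-d` for every other agent; the chores after `n` have value `0`. -/
noncomputable def ins {n m : ℕ} (d : ℝ) (i : Fin n) (g : Fin m) : ℝ :=
  if g.val = n then -1 else if g.val < n then (if g.val = i.val then 0 else -d) else 0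

lemma ins_nonpos {n m : ℕ} {d : ℝ} (hd : 0 ≤ d) (i : Fin n) (g : Fin m) : ins d i g ≤ 0 := by
  unfold ins
  split_ifs <;> linarith

lemma sum_ins {n m : ℕ} (hm : n + 1 ≤ m) (d : ℝ) (i : Fin n) :
    val (ins d) i (Finset.univ : Finset (Fin m)) = -1 - ((n : ℝ) - 1) * d := by
  obtain ⟨l, rfl⟩ : ∃ l, m = n + 1 + l := ⟨m - (n + 1), by omega⟩
  unfold val
  rw [Fin.sum_univ_add, Fin.sum_univ_castSucc]
  have h1 : ∀ g : Fin n, ins (m := n + 1 + l) d i (Fin.castAdd l g.castSucc) =
      if g = i then 0 else -d := by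
    intro g
    unfold ins
    have hg := g.2
    simp only [Fin.val_castAdd, Fin.val_castSucc]
    rw [if_neg (by omega), if_pos hg]
    simp only [Fin.ext_iff]
  have h2 : ins (m := n + 1 + l) d i (Fin.castAdd l (Fin.last n)) = -1 := by
    unfold ins
    simp
  have h3 : ∀ g : Fin l, ins (m := n + 1 + l) d i (Fin.natAdd (n + 1) g) = 0 := by
    intro g
    unfold ins
    simp only [Fin.val_natAdd]
    rw [if_neg (by omega), if_neg (by omega)]
  rw [h2]
  simp only [h1, h3, Finset.sum_const_zero, add_zero]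
  rw [Finset.sum_ite]
  simp only [Finset.sum_const_zero, Finset.sum_const, nsmul_eq_mul, zero_add]
  have h4 : (Finset.univ.filter (fun g : Fin n => ¬ g = i)).card = n - 1 := by
    rw [Finset.filter_not, Finset.filter_eq', if_pos (Finset.mem_univ i),
      Finset.card_sdiff_of_subset (Finset.subset_univ _), Finset.card_univ, Fintype.card_fin,
      Finset.card_singleton]
  rw [h4]
  have hn : 1 ≤ n := by have := i.isLt; omega
  push_cast [hn]
  ring

lemma own' {n m : ℕ} {d : ℝ} (hd : 0 < d) (A : Fin m → Fin n)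
    (hA : ParetoOptimal (ins d) A) (i : Fin n) (g₀ : Fin m) (hg₀ : g₀.val = i.val) :
    A g₀ = i := by
  classical
  by_contra hne
  apply hA
  have hi := i.2
  have v0 : ins d i g₀ = 0 := by
    unfold ins
    rw [if_neg (by omega), if_pos (by omega), if_pos hg₀]
  have vj : ∀ j : Fin n, j ≠ i → ins d j g₀ = -d := by
    intro j hj
    unfold ins
    rw [if_neg (by omega), if_pos (by omega), if_neg]
    intro h
    exact hj (Fin.ext (by omega))
  have hterm : ∀ k : Fin n, ∀ g : Fin m, (if A g = k then ins d k g else 0) ≤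
      (if Function.update A g₀ i g = k then ins d k g else 0) := by
    intro k g
    by_cases hg : g = g₀
    · subst hg
      rw [Function.update_self]
      by_cases hk : i = k
      · subst hk
        rw [if_neg hne, if_pos rfl, v0]
      · rw [if_neg hk]
        split_ifs
        · exact ins_nonpos hd.le k _
        · exact le_refl _
    · rw [Function.update_of_ne hg]
  refine ⟨Function.update A g₀ i, ?_, A g₀, ?_⟩
  · intro k
    rw [val_bundle, val_bundle]
    exact Finset.sum_le_sum (fun g _ => hterm k g)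
  · rw [val_bundle, val_bundle]
    refine Finset.sum_lt_sum (fun g _ => hterm _ g) ⟨g₀, Finset.mem_univ _, ?_⟩
    rw [Function.update_self, if_pos rfl, if_neg (fun h => hne h.symm), vj _ hne]
    linarith

theorem neg : S_NEG := by
  intro n m hn hm α hα
  have hn' : (2 : ℝ) ≤ (n : ℝ) := by exact_mod_cast hn
  -- the choice of `d`
  obtain ⟨d, hd, hαd⟩ : ∃ d : ℝ, 0 < d ∧ α * (1 + ((n : ℝ) - 1) * d) < n := by
    by_cases h0 : α ≤ 0
    · refine ⟨1, one_pos, ?_⟩
      have : α * (1 + ((n : ℝ) - 1) * 1) ≤ 0 :=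
        mul_nonpos_of_nonpos_of_nonneg h0 (by linarith)
      linarith
    · have h0' : 0 < α := not_le.mp h0
      refine ⟨((n : ℝ) - α) / (2 * α * ((n : ℝ) - 1)), ?_, ?_⟩
      · apply div_pos (by linarith)
        have : 0 < (n : ℝ) - 1 := by linarith
        positivity
      · have h1 : (n : ℝ) - 1 ≠ 0 := by linarith
        have e : α * (1 + ((n : ℝ) - 1) * (((n : ℝ) - α) / (2 * α * ((n : ℝ) - 1)))) =
            α + ((n : ℝ) - α) / 2 := by
          field_simp
        rw [e]
        linarith
  refine ⟨ins d, fun i g => ins_nonpos hd.le i g, ?_⟩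
  rintro A ⟨hX, hP⟩
  set gl : Fin m := ⟨n, by omega⟩ with hgl
  set i := A gl with hi
  set gi : Fin m := ⟨i.val, by have := i.2; omega⟩ with hgi
  have hown : A gi = i := own' hd A hP i gi rfl
  have hmem : gi ∈ bundle A i := by
    unfold bundle
    rw [Finset.mem_filter]
    exact ⟨Finset.mem_univ _, hown⟩
  have h1 := hX i _ hmem
  rw [sum_ins hm] at h1
  have hlast : gl ∈ (bundle A i).erase gi := by
    rw [Finset.mem_erase]
    refine ⟨?_, ?_⟩
    · intro h
      have h3 := congrArg Fin.val h
      have h2 := i.isLt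
      simp only [hgl, hgi] at h3
      omega
    · unfold bundle
      rw [Finset.mem_filter]
      exact ⟨Finset.mem_univ _, hi.symm⟩
  have h2 : val (ins d) i ((bundle A i).erase gi) ≤ -1 := by
    unfold val
    rw [← Finset.add_sum_erase _ _ hlast]
    have e1 : ins d i gl = -1 := by
      unfold ins
      simp [hgl]
    rw [e1]
    have : ∑ x ∈ ((bundle A i).erase gi).erase gl, ins d i x ≤ 0 :=
      Finset.sum_nonpos (fun g _ => ins_nonpos hd.le i g)
    linarith
  have h3 := h1.trans h2
  have h4 : α * ((-1 - ((n : ℝ) - 1) * d) / n) = -(α * (1 + ((n : ℝ) - 1) * d)) / n := by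
    ring
  rw [h4, div_le_iff₀ (by linarith)] at h3
  linarith

theorem exists_po {n m : ℕ} (hn : 1 ≤ n) (v : Fin n → Fin m → ℝ) :
    ∃ A : Fin m → Fin n, ParetoOptimal v A := by
  haveI : Nonempty (Fin m → Fin n) := ⟨fun _ => ⟨0, hn⟩⟩
  obtain ⟨A, hA⟩ := Finite.exists_max (fun A : Fin m → Fin n => ∑ i, val v i (bundle A i))
  refine ⟨A, ?_⟩
  rintro ⟨B, h1, j, h2⟩
  have h3 : ∑ i, val v i (bundle A i) < ∑ i, val v i (bundle B i) :=
    Finset.sum_lt_sum (fun i _ => h1 i) ⟨j, Finset.mem_univ _, h2⟩
  exact absurd (hA B) (not_le.mpr h3)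

lemma val_anti {n m : ℕ} {v : Fin n → Fin m → ℝ} (hv : ∀ i g, v i g ≤ 0) (i : Fin n)
    {S T : Finset (Fin m)} (h : S ⊆ T) : val v i T ≤ val v i S := by
  unfold val
  have := Finset.sum_le_sum_of_subset_of_nonneg (f := fun g => - v i g) h
    (fun g _ _ => by have := hv i g; linarith)
  simp only [Finset.sum_neg_distrib] at this
  linarith

theorem triv : S_TRIV := by
  intro n m hn α hα v hv
  refine ⟨?_, exists_po hn v⟩
  intro A i g _
  have hn' : (1 : ℝ) ≤ (n : ℝ) := by exact_mod_cast hn
  have h1 : val v i Finset.univ ≤ 0 := by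
    unfold val
    exact Finset.sum_nonpos fun g _ => hv i g
  have h2 : val v i Finset.univ ≤ val v i ((bundle A i).erase g) :=
    val_anti hv i (Finset.subset_univ _)
  have h3 : α * (val v i Finset.univ / (n : ℝ)) ≤ val v i Finset.univ := by
    have e : α * (val v i Finset.univ / (n : ℝ)) = (α / n) * val v i Finset.univ := by ring
    rw [e]
    have h4 : 1 ≤ α / n := by
      rw [le_div_iff₀ (by linarith)]
      linarith
    nlinarith
  exact h3.trans h2

end Pool.Agent.Y266.PX
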