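import Pool.Agent.Results.MP_1eb72c_co.NoPropXPO

/-!
# PropX and Pareto optimality for chores: statements of the parts

`val`, `bundle`, `PropX`, `ParetoOptimal` are the definitions of the starting file.
-/

set_option autoImplicit false

open Pool.Agent.Results.MP_1eb72c_co.NoPropXPO

namespace Pool.Agent.Y266.PX

/-- `A` is `α`-PropX: for every agent `i` and every chore `g` in the bundle of `i`, the bundle of
`i` without `g` is worth at least `α` times `v i (M) / n`. For `α = 1` this is PropX, and for larger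
`α` the condition is weaker. -/
def APropX {n m : ℕ} (α : ℝ) (v : Fin n → Fin m → ℝ) (A : Fin m → Fin n) : Prop :=
  ∀ i : Fin n, ∀ g ∈ bundle A i,
    α * (val v i Finset.univ / (n : ℝ)) ≤ val v i ((bundle A i).erase g)

/-- More chores than agents: no factor `α < n` is possible. -/
def S_NEG : Prop :=
  ∀ n m : ℕ, 2 ≤ n → n + 1 ≤ m → ∀ α : ℝ, α < n → ∃ v : Fin n → Fin m → ℝ, (∀ i g, v i g ≤ 0) ∧
    ∀ A : Fin m → Fin n, ¬ (APropX α v A ∧ ParetoOptimal v A)

/-- The factor `n` is trivial. -/
def S_TRIV : Prop :=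
  ∀ n m : ℕ, 1 ≤ n → ∀ α : ℝ, (n : ℝ) ≤ α → ∀ v : Fin n → Fin m → ℝ, (∀ i g, v i g ≤ 0) →
    (∀ A : Fin m → Fin n, APropX α v A) ∧ ∃ A : Fin m → Fin n, ParetoOptimal v A

/-- At most as many chores as agents: there is a Pareto optimal allocation in which every bundle
becomes worthless for its owner after the removal of any chore. -/
def S_POS : Prop :=
  ∀ n m : ℕ, m ≤ n → ∀ v : Fin n → Fin m → ℝ, (∀ i g, v i g ≤ 0) →
    ∃ A : Fin m → Fin n, ParetoOptimal v A ∧
      ∀ i, ∀ g ∈ bundle A i, val v i ((bundle A i).erase g) = 0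

end Pool.Agent.Y266.PX
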