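import Pool.Agent.Y266.PX.NEG

/-! Two agents and strictly negative values: a PropX and Pareto optimal allocation exists (the
argument is due to helper34). -/

set_option autoImplicit false

open Pool.Agent.Results.MP_1eb72c_co.NoPropXPO

namespace Pool.Agent.Y266.PX

lemma improve {n m : ℕ} (v : Fin n → Fin m → ℝ) (A : Fin m → Fin n) :
    ∃ B : Fin m → Fin n, ParetoOptimal v B ∧ ∀ i, val v i (bundle A i) ≤ val v i (bundle B i) := by
  classical
  obtain ⟨B, hB, hmax⟩ := Finset.exists_max_image
    (Finset.univ.filter (fun B : Fin m → Fin n => ∀ i, val v i (bundle A i) ≤ val v i (bundle B i)))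
    (fun B => ∑ i, val v i (bundle B i)) ⟨A, by simp⟩
  have hB' : ∀ i, val v i (bundle A i) ≤ val v i (bundle B i) := by simpa using hB
  refine ⟨B, ?_, hB'⟩
  rintro ⟨C, h1, j, h2⟩
  have h3 : ∑ i, val v i (bundle B i) < ∑ i, val v i (bundle C i) :=
    Finset.sum_lt_sum (fun i _ => h1 i) ⟨j, Finset.mem_univ _, h2⟩
  have h4 := hmax C (by
    rw [Finset.mem_filter]
    exact ⟨Finset.mem_univ _, fun i => (hB' i).trans (h1 i)⟩)
  exact absurd h4 (not_le.mpr h3)

lemma val_two {m : ℕ} (v : Fin 2 → Fin m → ℝ) (A : Fin m → Fin 2) (i : Fin 2) :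
    val v i (bundle A 0) + val v i (bundle A 1) = val v i Finset.univ := by
  unfold val
  rw [← Finset.sum_union]
  · congr 1
    ext g
    simp only [bundle, Finset.mem_union, Finset.mem_filter, Finset.mem_univ, true_and]
    constructor
    · intro _; trivial
    · intro _
      rcases Fin.exists_fin_two.mp ⟨A g, rfl⟩ with h | h
      · exact Or.inl h
      · exact Or.inr h
  · rw [Finset.disjoint_left]
    intro g h0 h1
    simp only [bundle, Finset.mem_filter, Finset.mem_univ, true_and] at h0 h1
    rw [h0] at h1
    exact absurd h1 (by decide)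

theorem two (m : ℕ) (v : Fin 2 → Fin m → ℝ) (hv : ∀ i g, v i g < 0) :
    ∃ A : Fin m → Fin 2, PropX v A ∧ ParetoOptimal v A := by
  classical
  have hv' : ∀ i g, v i g ≤ 0 := fun i g => (hv i g).le
  have hcast : ((2 : ℕ) : ℝ) = 2 := by norm_num
  set T : Fin 2 → ℝ := fun i => val v i Finset.univ with hT
  have hT0 : ∀ i, T i ≤ 0 := fun i => Finset.sum_nonpos fun g _ => hv' i g
  -- an allocation with proportional shares is PropX
  have hprop : ∀ A : Fin m → Fin 2, (∀ i, T i / 2 ≤ val v i (bundle A i)) → PropX v A := by
    intro A hA i g _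
    rw [hcast]
    exact (hA i).trans (val_anti hv' i (Finset.erase_subset _ _))
  -- the trivial allocation
  have hstart : ParetoOptimal v (fun _ : Fin m => (1 : Fin 2)) := by
    rintro ⟨B, h1, j, h2⟩
    have h3 : bundle B 0 = ∅ := by
      by_contra hne
      obtain ⟨g, hg⟩ := Finset.nonempty_iff_ne_empty.mpr hne
      have h4 : val v 0 (bundle B 0) < 0 := by
        unfold val
        exact Finset.sum_neg (fun g _ => hv 0 g) ⟨g, hg⟩
      have h5 := h1 0
      have h6 : bundle (fun _ : Fin m => (1 : Fin 2)) 0 = ∅ := by
        unfold bundle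
        simp
      rw [h6] at h5
      simp only [val, Finset.sum_empty] at h5 h4
      linarith
    have h7 : B = fun _ => 1 := by
      funext g
      rcases Fin.exists_fin_two.mp ⟨B g, rfl⟩ with h | h
      · exfalso
        have : g ∈ bundle B 0 := by simp [bundle, h]
        rw [h3] at this
        simp at this
      · exact h
    rw [h7] at h2
    exact lt_irrefl _ h2
  obtain ⟨A, hA, hmin⟩ := Finset.exists_min_image
    (Finset.univ.filter (fun A : Fin m → Fin 2 => ParetoOptimal v A ∧
      T 0 / 2 ≤ val v 0 (bundle A 0)))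
    (fun A => val v 0 (bundle A 0)) ⟨fun _ => 1, by
      rw [Finset.mem_filter]
      refine ⟨Finset.mem_univ _, hstart, ?_⟩
      have h6 : bundle (fun _ : Fin m => (1 : Fin 2)) 0 = ∅ := by
        unfold bundle
        simp
      rw [h6]
      simp only [val, Finset.sum_empty]
      have := hT0 0
      linarith⟩
  rw [Finset.mem_filter] at hA
  obtain ⟨-, hPO, hA0⟩ := hA
  by_cases hX : ∀ g ∈ bundle A 1, T 1 / 2 ≤ val v 1 ((bundle A 1).erase g)
  · refine ⟨A, ?_, hPO⟩
    intro i g hg
    rw [hcast]
    rcases Fin.exists_fin_two.mp ⟨i, rfl⟩ with h | h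
    · subst h
      exact hA0.trans (val_anti hv' 0 (Finset.erase_subset _ _))
    · subst h
      exact hX g hg
  · push Not at hX
    obtain ⟨g, hg, hlt⟩ := hX
    have hAg : A g = 1 := by simpa [bundle] using hg
    set A' : Fin m → Fin 2 := Function.update A g 0 with hA'
    have hb1 : bundle A' 1 = (bundle A 1).erase g := by
      ext h
      simp only [bundle, hA', Finset.mem_filter, Finset.mem_univ, true_and, Finset.mem_erase]
      by_cases hh : h = g
      · subst hh; simp
      · rw [Function.update_of_ne hh]
        simp [hh]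
    have hsum : ∀ i, val v i (bundle A' 0) + val v i (bundle A' 1) = T i := fun i => val_two v A' i
    have hstrict : val v 1 (bundle A 1) < val v 1 (bundle A' 1) := by
      rw [hb1]
      unfold val
      rw [← Finset.add_sum_erase _ _ hg]
      have := hv 1 g
      linarith
    rcases le_or_gt (T 0 / 2) (val v 0 (bundle A' 0)) with hc | hc
    · exfalso
      obtain ⟨B, hB, hdom⟩ := improve v A'
      have h1 := hmin B (by
        rw [Finset.mem_filter]
        exact ⟨Finset.mem_univ _, hB, hc.trans (hdom 0)⟩)
      apply hPO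
      refine ⟨B, ?_, 1, lt_of_lt_of_le hstrict (hdom 1)⟩
      intro i
      rcases Fin.exists_fin_two.mp ⟨i, rfl⟩ with h | h
      · subst h; exact h1
      · subst h; exact (hstrict.le).trans (hdom 1)
    · set S : Fin m → Fin 2 := fun h => if A' h = 0 then 1 else 0 with hS
      have hS0 : bundle S 0 = bundle A' 1 := by
        ext h
        simp only [bundle, hS, Finset.mem_filter, Finset.mem_univ, true_and]
        rcases Fin.exists_fin_two.mp ⟨A' h, rfl⟩ with e | e <;> simp [e]
      have hS1 : bundle S 1 = bundle A' 0 := by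
        ext h
        simp only [bundle, hS, Finset.mem_filter, Finset.mem_univ, true_and]
        rcases Fin.exists_fin_two.mp ⟨A' h, rfl⟩ with e | e <;> simp [e]
      obtain ⟨B, hB, hdom⟩ := improve v S
      refine ⟨B, hprop B ?_, hB⟩
      intro i
      refine le_trans ?_ (hdom i)
      rcases Fin.exists_fin_two.mp ⟨i, rfl⟩ with h | h
      · subst h
        rw [hS0]
        have := hsum 0
        linarith
      · subst h
        rw [hS1]
        have := hsum 1
        rw [hb1] at this
        linarith

end Pool.Agent.Y266.PX
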